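import Pool.Agent.Run7.h200.LP.Defs
import Pool.Agent.Run7.h200.PMain

/-!
# Leopoldt's conjecture and Galois groups
-/

set_option autoImplicit false
set_option linter.unusedSectionVars false

namespace Run7.h200.LP

open NumberField Pool.Agent.W289.SL Pool.Agent.Run7.h508.BR Equiv
open Run7.h200.Van Run7.h200.Pr

variable {p : ℕ} [Fact p.Prime] {L : ℂ_[p] → ℂ_[p]} {hL : IsIwasawaLog p L}
  {k N : Type} [Field k] [NumberField k] [Field N] [NumberField N] [Algebra k N]

/-- the rational structure -/
noncomputable abbrev ratMod (p : ℕ) [Fact p.Prime] (N : Type) [Field N] [NumberField N] :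
    Module ℚ (UM p N) :=
  Module.compHom _ (algebraMap ℚ ℂ_[p])

/-- the kernel as a rational subspace -/
noncomputable def kerQ (hL : IsIwasawaLog p L) (N : Type) [Field N] [NumberField N] :
    @Submodule ℚ (UM p N) _ _ (ratMod p N) :=
  letI := ratMod p N
  { carrier := {x | InKer hL N x}
    zero_mem' := fun σ => map_zero _
    add_mem' := fun {x y} hx hy σ => by rw [map_add, hx σ, hy σ, add_zero]
    smul_mem' := fun q x hx σ => by
      change logLin hL σ (algebraMap ℚ ℂ_[p] q • x) = 0
      rw [map_smul, hx σ, smul_zero] }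

/-- the representation -/
noncomputable def repU (p : ℕ) [Fact p.Prime] (k N : Type) [Field k] [NumberField k] [Field N]
    [NumberField N] [Algebra k N] : (N ≃ₐ[k] N) →* @Module.End ℚ (UM p N) _ _ (ratMod p N) :=
  letI := ratMod p N
  { toFun := fun g =>
      { toFun := fun x => actLin p (g : N →+* N) x
        map_add' := fun x y => map_add _ x y
        map_smul' := fun q x => by
          change actLin p (g : N →+* N) (algebraMap ℚ ℂ_[p] q • x) =
            algebraMap ℚ ℂ_[p] q • actLin p (g : N →+* N) x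
          exact map_smul _ _ _ }
    map_one' := by
      refine LinearMap.ext fun x => ?_
      change actLin p ((1 : N ≃ₐ[k] N) : N →+* N) x = x
      induction x using TensorProduct.induction_on with
      | zero => simp
      | tmul c u =>
        rw [actLin_tmul]
        congr 1
      | add a b ha hb => rw [map_add, ha, hb]
    map_mul' := fun g h => by
      refine LinearMap.ext fun x => ?_
      exact act_comp (g : N →+* N) (h : N →+* N) x }

lemma fix_iff [IsGalois k N] (H : Subgroup (N ≃ₐ[k] N)) :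
    LeoFix hL H ↔ NoInv (actU p k N) (InKer hL N) H := by
  unfold LeoFix
  rw [leo_fixed hL N H, Submodule.finrank_eq_zero]
  constructor
  · intro h z hz hzH
    have hz' : z ∈ lker hL N := (mem_lker hL).mpr hz
    have h1 : (⟨z, hz'⟩ : lker hL N) ∈ fixS (lact hL N) H := fun g hg => Subtype.ext (hzH g hg)
    rw [h, Submodule.mem_bot] at h1
    exact congrArg Subtype.val h1
  · intro h
    rw [eq_bot_iff]
    intro z hz
    rw [Submodule.mem_bot]
    apply Subtype.ext
    exact h z.1 ((mem_lker hL).mp z.2) fun g hg => congrArg Subtype.val (hz g hg)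

lemma bot_iff : LeoFix hL (⊥ : Subgroup (N ≃ₐ[k] N)) ↔ leo hL N = 0 := by
  have e : (IntermediateField.fixedField (⊥ : Subgroup (N ≃ₐ[k] N))) ≃+* N :=
    ((IntermediateField.equivOfEq IntermediateField.fixedField_bot).trans
      IntermediateField.topEquiv).toRingEquiv
  unfold LeoFix
  rw [leo_iso hL _ N e]

/-- **Leopoldt's conjecture and Galois groups.** -/
theorem mainLP [IsGalois k N] :
    Mono (LeoFix hL (k := k) (N := N)) ∧
    (∀ (H : Subgroup (N ≃ₐ[k] N)) (ι : Type) (E : ι → Subgroup (N ≃ₐ[k] N)),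
      Dom (actU p k N) (InKer hL N) H E → (∀ j, LeoFix hL (E j)) → LeoFix hL H) ∧
    Criteria (LeoFix hL (k := k) (N := N)) ∧ Sieve (LeoFix hL (k := k) (N := N)) ∧
    (∀ (n r : ℕ) (e : Perm (Fin n) →* (N ≃ₐ[k] N)), 2 ≤ r → (r - 1) ^ 2 < n →
      (LeoFix hL (⊥ : Subgroup (N ≃ₐ[k] N)) ↔ LeoFix hL ((symSub n r).map e) ∧
        NoAlt (actU p k N) (InKer hL N) e r)) ∧
    (¬ LeoFix hL (⊥ : Subgroup (N ≃ₐ[k] N)) →
      (∀ D : Subgroup (N ≃ₐ[k] N), (Nat.card D).Prime → LeoFix hL D) →
      Fre (actU p k N) (InKer hL N) ∧ CyclicSubgroups (N ≃ₐ[k] N)) := by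
  have hfin : FiniteDimensional k N := Module.Finite.of_restrictScalars_finite ℚ k N
  letI := ratMod p N
  have hs : ∀ g, ∀ u ∈ kerQ hL N, repU p k N g u ∈ kerQ hL N := by
    intro g u hu σ
    change logLin hL σ (actLin p (g : N →+* N) u) = 0
    rw [logLin_act]
    exact hu _
  have h := Pr.main (τ := actU p k N) (P := InKer hL N) (ρ := repU p k N) (U := kerQ hL N)
    (fun _ _ => rfl) (fun _ => Iff.rfl) hs
  have hE : NoInv (actU p k N) (InKer hL N) = LeoFix hL (k := k) (N := N) :=
    funext fun H => propext (fix_iff H).symm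
  rw [hE] at h
  obtain ⟨m1, m2, m3, m4, m5⟩ := h
  refine ⟨?_, m1, m2, m3, m4, m5⟩
  rw [← hE]
  exact Pr.mono

end Run7.h200.LP
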