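import Pool.Agent.Run7.h508.BR.Leo
import Pool.Agent.Run7.h200.PDefs

/-!
# Leopoldt's conjecture and Galois groups: definitions
-/

set_option autoImplicit false

namespace Run7.h200.LP

open NumberField Pool.Agent.W289.SL Pool.Agent.Run7.h508.BR

variable {p : ℕ} [Fact p.Prime] {L : ℂ_[p] → ℂ_[p]} (hL : IsIwasawaLog p L)
  {k N : Type} [Field k] [NumberField k] [Field N] [NumberField N] [Algebra k N]

/-- Leopoldt's conjecture for the fixed field of the group `H` of automorphisms of `N`: the kernel of
Leopoldt's map for this field is zero. -/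
def LeoFix (H : Subgroup (N ≃ₐ[k] N)) : Prop := leo hL (IntermediateField.fixedField H) = 0

variable (k N)

/-- The element `x` of `ℂ_p ⊗ 𝓞_N^×` is in the kernel of Leopoldt's map `u ↦ (log_p σ u)_σ` for the
field `N`. -/
def InKer (x : UM p N) : Prop := ∀ σ : N →+* ℂ_[p], logLin hL σ x = 0

variable (p)

/-- The action of the Galois group on `ℂ_p ⊗ 𝓞_N^×`. -/
noncomputable def actU (g : N ≃ₐ[k] N) (x : UM p N) : UM p N := actLin p (g : N →+* N) x

end Run7.h200.LP
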